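import Pool.Agent.Q120.MF.Hits
import Pool.Agent.Q273.CG.Tree

/-!
# Hausdorff dimension of the sets of free positions
-/

set_option autoImplicit false

namespace Pool.Agent.Q120.MF

open Finset MeasureTheory Filter Topology
open scoped ENNReal NNReal

/-- The `α` in `[1, 2]` for which `(α x n, α x n + c (log x n) ^ 2]` is free of `S` for infinitely many `n`. -/
def Often (S : Set ℕ) (x : ℕ → ℝ) (c : ℝ) : Set ℝ :=
  {α | 1 ≤ α ∧ α ≤ 2 ∧ ∃ᶠ n in atTop, FreeAt S (α * x n) (c * Real.log (x n) ^ 2)}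

/-- The `α` in `[1, 2]` for which `(α x n, α x n + c (log x n) ^ 2]` is free of `S` for all large `n`. -/
def Always (S : Set ℕ) (x : ℕ → ℝ) (c : ℝ) : Set ℝ :=
  {α | 1 ≤ α ∧ α ≤ 2 ∧ ∀ᶠ n in atTop, FreeAt S (α * x n) (c * Real.log (x n) ^ 2)}

theorem freeAt_mono {S : Set ℕ} {y h h' : ℝ} (hh : h' ≤ h) (hf : FreeAt S y h) : FreeAt S y h' :=
  fun m hm hcon => hf m hm ⟨hcon.1, by linarith [hcon.2]⟩

theorem often_anti {S : Set ℕ} {x : ℕ → ℝ} {c c' : ℝ} (h : c' ≤ c) : Often S x c ⊆ Often S x c' := by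
  rintro α ⟨h1, h2, h3⟩
  exact ⟨h1, h2, h3.mono (fun n hn => freeAt_mono (mul_le_mul_of_nonneg_right h (by positivity)) hn)⟩

theorem always_anti {S : Set ℕ} {x : ℕ → ℝ} {c c' : ℝ} (h : c' ≤ c) : Always S x c ⊆ Always S x c' := by
  rintro α ⟨h1, h2, h3⟩
  exact ⟨h1, h2, h3.mono (fun n hn => freeAt_mono (mul_le_mul_of_nonneg_right h (by positivity)) hn)⟩

theorem always_subset_often {S : Set ℕ} {x : ℕ → ℝ} {c : ℝ} : Always S x c ⊆ Often S x c := by
  rintro α ⟨h1, h2, h3⟩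
  exact ⟨h1, h2, h3.frequently⟩

theorem often_empty {S : Set ℕ} {x : ℕ → ℝ} (hx0 : ∀ n, 0 < x n) {c : ℝ} (hc : 0 ≤ c)
    (h : ∀ᶠ n in atTop, (starts S c (x n)).card = 0) : Often S x c = ∅ := by
  rw [Set.eq_empty_iff_forall_notMem]
  rintro α ⟨h1, h2, h3⟩
  obtain ⟨n, hn1, hn2⟩ := (h3.and_eventually h).exists
  have := mem_starts_of_free (hx0 n) h1 h2 hc hn1
  rw [card_eq_zero] at hn2
  rw [hn2] at this
  exact notMem_empty _ this

theorem dimH_often_le {S : Set ℕ} {x : ℕ → ℝ} (hx0 : ∀ n, 0 < x n)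
    (hx : ∀ ε : ℝ, 0 < ε → Summable (fun n => x n ^ (-ε))) {c t s : ℝ} (hc : 0 ≤ c)
    (h : ∀ᶠ n in atTop, ((starts S c (x n)).card : ℝ) < x n ^ t) (hts : t < s) (hs : 0 ≤ s) :
    dimH (Often S x c) ≤ ENNReal.ofReal s := by
  have hxt := eventually_large hx0 hx
  have hsum : Summable (fun n => x n ^ t * x n ^ (-s)) := by
    refine (hx (s - t) (by linarith)).congr (fun n => ?_)
    rw [← Real.rpow_add (hx0 n)]; congr 1; ring
  obtain ⟨n0, hn0⟩ := eventually_atTop.1 h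
  -- the covers
  let ι : ℕ → Type := fun N => (n : ℕ) × {m : ℕ // m ∈ starts S c (x (n + N + n0))}
  let U : ∀ N, ι N → Set ℝ := fun N i => Set.Icc ((i.2.1 : ℝ) / x (i.1 + N + n0)) (((i.2.1 : ℝ) + 1) / x (i.1 + N + n0))
  have hdiam : ∀ N (i : ι N), Metric.ediam (U N i) = ENNReal.ofReal (1 / x (i.1 + N + n0)) := by
    intro N i
    simp only [U]
    rw [Real.ediam_Icc]
    congr 1
    have := hx0 (i.1 + N + n0)
    field_simp
    ring
  have hμ : μH[s] (Often S x c) ≤ liminf (fun N => ∑' i, Metric.ediam (U N i) ^ s) atTop := by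
    obtain ⟨r, hr⟩ : ∃ r : ℕ → ℝ≥0∞, r = fun N => ⨆ n, ENNReal.ofReal (1 / x (n + N + n0)) := ⟨_, rfl⟩
    apply Measure.hausdorffMeasure_le_liminf_tsum s (Often S x c) r _ U
    · refine Eventually.of_forall (fun N i => ?_)
      rw [hdiam, hr]
      exact le_iSup (fun n => ENNReal.ofReal (1 / x (n + N + n0))) i.1
    · refine Eventually.of_forall (fun N => ?_)
      rintro α ⟨h1, h2, h3⟩
      obtain ⟨n, hn1, hn2⟩ := (h3.and_eventually (eventually_ge_atTop (N + n0))).exists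
      have hxn := hx0 n
      have hm := mem_starts_of_free hxn h1 h2 hc hn1
      rw [Set.mem_iUnion]
      have hnN : n - (N + n0) + N + n0 = n := by omega
      refine ⟨⟨n - (N + n0), ⟨⌊α * x n⌋₊, by rw [hnN]; exact hm⟩⟩, ?_⟩
      simp only [U, hnN]
      constructor
      · rw [div_le_iff₀ hxn]
        exact Nat.floor_le (by positivity)
      · rw [le_div_iff₀ hxn]
        exact (Nat.lt_floor_add_one _).le
    · rw [hr, ENNReal.tendsto_atTop_zero]
      intro ε hε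
      have h1 : Tendsto (fun n => ENNReal.ofReal (1 / x n)) atTop (𝓝 0) := by
        rw [← ENNReal.ofReal_zero]
        apply ENNReal.tendsto_ofReal
        exact tendsto_const_nhds.div_atTop hxt
      rw [ENNReal.tendsto_atTop_zero] at h1
      obtain ⟨N1, hN1⟩ := h1 ε hε
      refine ⟨N1, fun N hN => ?_⟩
      apply iSup_le
      intro n
      exact hN1 _ (by omega)
  have hbound : ∀ N, ∑' i, Metric.ediam (U N i) ^ s ≤
      ∑' n, ENNReal.ofReal (x (n + N + n0) ^ t * x (n + N + n0) ^ (-s)) := by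
    intro N
    rw [ENNReal.tsum_sigma']
    apply ENNReal.tsum_le_tsum
    intro n
    rw [tsum_fintype]
    have h1 : ∀ m : {m : ℕ // m ∈ starts S c (x (n + N + n0))},
        Metric.ediam (U N ⟨n, m⟩) ^ s = ENNReal.ofReal (x (n + N + n0) ^ (-s)) := by
      intro m
      rw [hdiam, ENNReal.ofReal_rpow_of_nonneg (by have := hx0 (n + N + n0); positivity) hs]
      congr 1
      rw [Real.rpow_neg (hx0 _).le, one_div, Real.inv_rpow (hx0 _).le]
    rw [Finset.sum_congr rfl (fun m _ => h1 m), sum_const, nsmul_eq_mul,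
      ENNReal.ofReal_mul (Real.rpow_nonneg (hx0 _).le _)]
    gcongr
    have h2 := hn0 (n + N + n0) (by omega)
    rw [card_univ, Fintype.card_coe]
    rw [← ENNReal.ofReal_natCast]
    exact ENNReal.ofReal_le_ofReal h2.le
  have hlim : Tendsto (fun N => ∑' n, ENNReal.ofReal (x (n + N + n0) ^ t * x (n + N + n0) ^ (-s))) atTop (𝓝 0) := by
    have h1 := tendsto_sum_nat_add (fun n => x (n + n0) ^ t * x (n + n0) ^ (-s))
    have h2 : ∀ N, ∑' n, ENNReal.ofReal (x (n + N + n0) ^ t * x (n + N + n0) ^ (-s)) =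
        ENNReal.ofReal (∑' n, x (n + N + n0) ^ t * x (n + N + n0) ^ (-s)) := by
      intro N
      rw [ENNReal.ofReal_tsum_of_nonneg]
      · intro n
        have := hx0 (n + N + n0)
        positivity
      · have h3 := (summable_nat_add_iff (N + n0)).2 hsum
        simpa only [add_assoc] using h3
    simp_rw [h2]
    rw [← ENNReal.ofReal_zero]
    exact ENNReal.tendsto_ofReal h1
  have hzero : μH[s] (Often S x c) = 0 := by
    refine le_antisymm ?_ bot_le
    refine hμ.trans ?_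
    have h1 : liminf (fun N => ∑' i, Metric.ediam (U N i) ^ s) atTop ≤
        liminf (fun N => ∑' n, ENNReal.ofReal (x (n + N + n0) ^ t * x (n + N + n0) ^ (-s))) atTop :=
      liminf_le_liminf (Eventually.of_forall hbound)
    rw [hlim.liminf_eq] at h1
    exact h1
  have h2 := dimH_le_of_hausdorffMeasure_ne_top (s := Often S x c) (d := s.toNNReal) (by
    rw [Real.coe_toNNReal s hs, hzero]; exact ENNReal.zero_ne_top)
  exact h2

/-- The lower bound for the dimension along a rapidly increasing sequence of scales. -/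
theorem le_dimH_of_hits {S : Set ℕ} {y : ℕ → ℝ} {c θ ε : ℝ} (hc : 0 < c) (hθ : c < θ) (hε : 0 < ε)
    (hθε : θ + ε < 1) (hy1 : ∀ k, 1 ≤ y k) (hy0 : 16 ≤ y 0 ^ ε) (hys : ∀ k, 16 * y k ≤ y (k + 1) ^ ε)
    (hH : ∀ k, Hits S c θ (y k)) :
    ENNReal.ofReal (1 - θ - ε) ≤ dimH {α : ℝ | 1 ≤ α ∧ α ≤ 2 ∧
      ∀ k, FreeAt S (α * y k) (c * Real.log (y k) ^ 2)} := by
  have hypos : ∀ k, 0 < y k := fun k => by linarith [hy1 k]
  obtain ⟨ℓ, hℓ⟩ : ∃ ℓ : ℕ → ℝ, ℓ = fun k => Nat.casesOn k 1 (fun k => 1 / y k) := ⟨_, rfl⟩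
  have hℓ0 : ℓ 0 = 1 := by rw [hℓ]; rfl
  have hℓs : ∀ k, ℓ (k + 1) = 1 / y k := fun k => by rw [hℓ]
  have hℓpos : ∀ k, 0 < ℓ k := by
    intro k
    rcases k with _ | k
    · rw [hℓ0]; norm_num
    · rw [hℓs]; have := hypos k; positivity
  obtain ⟨Δ, hΔ⟩ : ∃ Δ : ℕ → ℝ, Δ = fun k => 4 * y k ^ (θ - 1) := ⟨_, rfl⟩
  have hΔk : ∀ k, Δ k = 4 * y k ^ (θ - 1) := fun k => by rw [hΔ]
  have hΔpos : ∀ k, 0 < Δ k := fun k => by
    rw [hΔk]; have := Real.rpow_pos_of_pos (hypos k) (θ - 1); positivity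
  obtain ⟨t, ht⟩ : ∃ t : ℕ → ℝ, t = fun k => ℓ k / (2 * Δ k) := ⟨_, rfl⟩
  have htk : ∀ k, t k = ℓ k / (2 * Δ k) := fun k => by rw [ht]
  obtain ⟨T, hT⟩ : ∃ T : ℕ → ℕ, T = fun k => ⌊t k⌋₊ := ⟨_, rfl⟩
  have hTk : ∀ k, T k = ⌊t k⌋₊ := fun k => by rw [hT]
  have hs0 : 0 < 1 - θ - ε := by linarith
  -- `t k ≥ 2 y_k^s`
  have hkey : ∀ k, 2 * y k ^ (1 - θ - ε) ≤ t k := by
    intro k
    have hyk := hypos k
    have h1 : 16 * y k ^ (-ε) ≤ ℓ k := by
      rcases k with _ | k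
      · rw [hℓ0, Real.rpow_neg (hypos 0).le]
        rw [← div_eq_mul_inv, div_le_one (Real.rpow_pos_of_pos (hypos 0) _)]
        exact hy0
      · rw [hℓs, Real.rpow_neg (hypos (k + 1)).le, ← div_eq_mul_inv,
          div_le_div_iff₀ (Real.rpow_pos_of_pos (hypos (k + 1)) _) (hypos k)]
        have := hys k
        linarith
    rw [htk, hΔk, le_div_iff₀ (by
      have := Real.rpow_pos_of_pos hyk (θ - 1); positivity)]
    have h2 : 2 * y k ^ (1 - θ - ε) * (2 * (4 * y k ^ (θ - 1))) = 16 * y k ^ (-ε) := by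
      have h3 : y k ^ (1 - θ - ε) * y k ^ (θ - 1) = y k ^ (-ε) := by
        rw [← Real.rpow_add hyk]; congr 1; ring
      calc _ = 16 * (y k ^ (1 - θ - ε) * y k ^ (θ - 1)) := by ring
        _ = _ := by rw [h3]
    rw [h2]
    exact h1
  have hone : ∀ k, 1 ≤ y k ^ (1 - θ - ε) := fun k => Real.one_le_rpow (hy1 k) hs0.le
  have ht1 : ∀ k, 2 ≤ t k := fun k => by linarith [hkey k, hone k]
  have hThalf : ∀ k, t k / 2 ≤ T k := by
    intro k
    have h1 := Nat.lt_floor_add_one (t k)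
    rw [hTk]
    linarith [ht1 k]
  have hTle : ∀ k, (T k : ℝ) ≤ t k := fun k => by rw [hTk]; exact Nat.floor_le (by linarith [ht1 k])
  have hTone : ∀ k, (1 : ℝ) ≤ T k := fun k => by linarith [hThalf k, ht1 k]
  have hyt : Tendsto y atTop atTop := by
    have hgrow : ∀ k : ℕ, (16 : ℝ) ^ k ≤ y k := by
      intro k
      induction k with
      | zero => simpa using hy1 0
      | succ k ih =>
        have h1 := hys k
        have h2 : y (k + 1) ^ ε ≤ y (k + 1) ^ (1 : ℝ) :=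
          Real.rpow_le_rpow_of_exponent_le (hy1 _) (by linarith)
        rw [Real.rpow_one] at h2
        rw [pow_succ]
        linarith
    exact tendsto_atTop_mono hgrow (tendsto_pow_atTop_atTop_of_one_lt (by norm_num))
  have hres := Q273.CG.le_dimH_all (a := 1) (b := 2) (c := 1) (s := (1 - θ - ε).toNNReal)
    (by rw [Real.toNNReal_pos]; exact hs0) (by rw [Real.coe_toNNReal _ hs0.le]; linarith) one_pos
    ℓ Δ T (fun k => {α : ℝ | FreeAt S (α * y k) (c * Real.log (y k) ^ 2)}) hℓpos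
    (by
      rw [← tendsto_add_atTop_iff_nat 1]
      simp_rw [hℓs]
      exact tendsto_const_nhds.div_atTop hyt)
    (by rw [hℓ0]; norm_num) hΔpos
    (by
      intro k
      have h1 := hTle k
      rw [htk, le_div_iff₀ (by have := hΔpos k; positivity)] at h1
      linarith)
    (by
      intro k
      have h1 := hThalf k
      rw [htk] at h1
      have h2 := hΔpos k
      have h3 : ℓ k / (2 * Δ k) / 2 = ℓ k / (4 * Δ k) := by field_simp; norm_num
      rw [h3, div_le_iff₀ (by positivity)] at h1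
      have h4 := hℓpos k
      have h5 := hTone k
      nlinarith)
    (by
      intro k
      rw [one_mul, Real.coe_toNNReal _ hs0.le]
      rcases k with _ | k
      · rw [hℓ0]; simp
      · rw [hℓs, prod_range_succ]
        have h1 : (1 : ℝ) ≤ ∏ i ∈ range k, (T i : ℝ) := by
          have := Finset.prod_le_prod (s := range k) (f := fun _ => (1 : ℝ)) (g := fun i => (T i : ℝ))
            (fun _ _ => zero_le_one) (fun i _ => hTone i)
          simpa using this
        have h2 : (1 / y k) ^ (-(1 - θ - ε)) = y k ^ (1 - θ - ε) := by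
          rw [one_div, Real.inv_rpow (hypos k).le, ← Real.rpow_neg (hypos k).le, neg_neg]
        rw [h2]
        have h3 : y k ^ (1 - θ - ε) ≤ T k := by linarith [hkey k, hThalf k]
        have h4 := hTone k
        nlinarith)
    (by
      intro k w hw1 hw2
      rw [hΔk] at hw2
      obtain ⟨m, hm1, hm2, hm3⟩ := hH k w hw1 hw2
      have hyk := hypos k
      refine ⟨m / y k, ?_, ?_, ?_⟩
      · rw [le_div_iff₀ hyk]; exact hm1
      · rw [hℓs, hΔk, ← add_div, div_le_iff₀ hyk]; exact hm2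
      · rintro α ⟨hα1, hα2⟩
        rw [hℓs, ← add_div] at hα2
        rw [div_le_iff₀ hyk] at hα1
        rw [le_div_iff₀ hyk] at hα2
        intro n hn hcon
        apply hm3 n hn
        constructor
        · have : (m : ℝ) < n := lt_of_le_of_lt hα1 hcon.1
          exact_mod_cast this
        · have h1 : (n : ℝ) ≤ ((m + kL c (y k) : ℕ) : ℝ) := by
            unfold kL
            push_cast
            have := Nat.le_ceil (c * Real.log (y k) ^ 2)
            linarith [hcon.2]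
          exact_mod_cast h1)
  refine le_trans ?_ hres
  rfl

theorem exists_subseq {x : ℕ → ℝ} (hxt : Tendsto x atTop atTop) {ε : ℝ} (hε : 0 < ε) (n0 : ℕ) :
    ∃ φ : ℕ → ℕ, StrictMono φ ∧ (∀ k, n0 ≤ φ k) ∧ (∀ k, 1 ≤ x (φ k)) ∧ 16 ≤ x (φ 0) ^ ε ∧
      ∀ k, 16 * x (φ k) ≤ x (φ (k + 1)) ^ ε := by
  have hxε : Tendsto (fun n => x n ^ ε) atTop atTop := (tendsto_rpow_atTop hε).comp hxt
  have h1 : ∀ (N : ℕ) (R : ℝ), ∃ n, N < n ∧ 1 ≤ x n ∧ R ≤ x n ^ ε := by
    intro N R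
    obtain ⟨n, hn1, hn2, hn3⟩ := ((eventually_gt_atTop N).and ((hxt.eventually_ge_atTop 1).and
      (hxε.eventually_ge_atTop R))).exists
    exact ⟨n, hn1, hn2, hn3⟩
  choose g hg1 hg2 hg3 using h1
  obtain ⟨φ, hφ⟩ : ∃ φ : ℕ → ℕ, φ = fun k => Nat.rec (g n0 16) (fun _ n => g n (16 * x n)) k := ⟨_, rfl⟩
  have hφ0 : φ 0 = g n0 16 := by rw [hφ]; rfl
  have hφs : ∀ k, φ (k + 1) = g (φ k) (16 * x (φ k)) := fun k => by rw [hφ]
  have hmono : StrictMono φ := strictMono_nat_of_lt_succ (fun k => by rw [hφs]; exact hg1 _ _)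
  refine ⟨φ, hmono, ?_, ?_, ?_, ?_⟩
  · intro k
    have h2 : n0 < φ 0 := by rw [hφ0]; exact hg1 _ _
    have := hmono.monotone (Nat.zero_le k)
    omega
  · intro k
    rcases k with _ | k
    · rw [hφ0]; exact hg2 _ _
    · rw [hφs]; exact hg2 _ _
  · rw [hφ0]; exact hg3 _ _
  · intro k
    rw [hφs]; exact hg3 _ _

theorem le_dimH_often {S : Set ℕ} {x : ℕ → ℝ} (hxt : Tendsto x atTop atTop) {c θ ε : ℝ} (hc : 0 < c)
    (hθ : c < θ) (hε : 0 < ε) (hθε : θ + ε < 1) (hH : ∀ᶠ n in atTop, Hits S c θ (x n)) :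
    ENNReal.ofReal (1 - θ - ε) ≤ dimH (Often S x c) := by
  obtain ⟨n0, hn0⟩ := eventually_atTop.1 hH
  obtain ⟨φ, hφ1, hφ2, hφ3, hφ4, hφ5⟩ := exists_subseq hxt hε n0
  have h1 := le_dimH_of_hits (S := S) (y := fun k => x (φ k)) hc hθ hε hθε hφ3 hφ4 hφ5
    (fun k => hn0 _ (hφ2 k))
  refine h1.trans (dimH_mono ?_)
  rintro α ⟨h2, h3, h4⟩
  refine ⟨h2, h3, ?_⟩
  rw [frequently_atTop]
  intro a
  exact ⟨φ a, hφ1.id_le a, h4 a⟩

theorem le_dimH_always {S : Set ℕ} {x : ℕ → ℝ} (hxt : Tendsto x atTop atTop) {c θ ε : ℝ} (hc : 0 < c)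
    (hθ : c < θ) (hε : 0 < ε) (hθε : θ + ε < 1) (hH : ∀ᶠ n in atTop, Hits S c θ (x n))
    (hgrow : ∀ᶠ n in atTop, 16 * x n ≤ x (n + 1) ^ ε) :
    ENNReal.ofReal (1 - θ - ε) ≤ dimH (Always S x c) := by
  have hxε : Tendsto (fun n => x n ^ ε) atTop atTop := (tendsto_rpow_atTop hε).comp hxt
  obtain ⟨n0, hn0⟩ := eventually_atTop.1 (hH.and (hgrow.and ((hxt.eventually_ge_atTop 1).and
    (hxε.eventually_ge_atTop 16))))
  have h1 := le_dimH_of_hits (S := S) (y := fun k => x (k + n0)) hc hθ hε hθε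
    (fun k => (hn0 (k + n0) (by omega)).2.2.1) (hn0 (0 + n0) (by omega)).2.2.2
    (fun k => by
      have := (hn0 (k + n0) (by omega)).2.1
      rwa [show k + n0 + 1 = k + 1 + n0 by ring] at this)
    (fun k => (hn0 (k + n0) (by omega)).1)
  refine h1.trans (dimH_mono ?_)
  rintro α ⟨h2, h3, h4⟩
  refine ⟨h2, h3, ?_⟩
  filter_upwards [eventually_ge_atTop n0] with n hn
  have := h4 (n - n0)
  rwa [Nat.sub_add_cancel hn] at this

end Pool.Agent.Q120.MF
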