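import Pool.Agent.Q120.MF.Model

/-!
# Free windows along a sequence of scales in Cramér's model
-/

set_option autoImplicit false

namespace Pool.Agent.Q120.MF

open Finset MeasureTheory Filter Pool.Agent.Q120.ET

/-- `(y, y + h]` contains no element of `S`. -/
def FreeAt (S : Set ℕ) (y h : ℝ) : Prop := ∀ m ∈ S, ¬ (y < m ∧ (m : ℝ) ≤ y + h)

/-- Length of the windows for the upper bound. -/
noncomputable def hU (c x : ℝ) : ℕ := ⌊c * Real.log x ^ 2⌋₊ - 1

open Classical in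
/-- The starting points of free windows. -/
noncomputable def starts (S : Set ℕ) (c x : ℝ) : Finset ℕ :=
  (Icc ⌊x⌋₊ ⌊2 * x⌋₊).filter (fun m => ∀ n ∈ S, ¬ (m < n ∧ n ≤ m + hU c x))

theorem mem_starts_of_free {S : Set ℕ} {c x α : ℝ} (hx : 0 < x) (h1 : 1 ≤ α) (h2 : α ≤ 2)
    (hc : 0 ≤ c) (hf : FreeAt S (α * x) (c * Real.log x ^ 2)) : ⌊α * x⌋₊ ∈ starts S c x := by
  classical
  unfold starts
  rw [mem_filter, mem_Icc]
  refine ⟨⟨Nat.floor_le_floor (by nlinarith), Nat.floor_le_floor (by nlinarith)⟩, ?_⟩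
  rintro n hn ⟨h3, h4⟩
  apply hf n hn
  constructor
  · exact (Nat.floor_lt (by positivity)).1 h3
  · have h5 : ((n : ℕ) : ℝ) ≤ ((⌊α * x⌋₊ + hU c x : ℕ) : ℝ) := by exact_mod_cast h4
    push_cast at h5
    have h6 : (⌊α * x⌋₊ : ℝ) ≤ α * x := Nat.floor_le (by positivity)
    have h7 : (hU c x : ℝ) ≤ c * Real.log x ^ 2 := by
      unfold hU
      have h8 : ((⌊c * Real.log x ^ 2⌋₊ - 1 : ℕ) : ℝ) ≤ (⌊c * Real.log x ^ 2⌋₊ : ℝ) := by
        exact_mod_cast Nat.sub_le _ _
      exact h8.trans (Nat.floor_le (by positivity))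
    linarith

variable {Ω : Type*} [MeasurableSpace Ω] {μ : Measure Ω} [IsProbabilityMeasure μ] {A : Ω → Set ℕ}

theorem eventually_large {x : ℕ → ℝ} (hx0 : ∀ n, 0 < x n) (hx : ∀ ε : ℝ, 0 < ε → Summable (fun n => x n ^ (-ε))) :
    Tendsto x atTop atTop := by
  have h1 := (hx 1 one_pos).tendsto_atTop_zero
  have h2 : Tendsto (fun n => (x n ^ (-(1 : ℝ)))⁻¹) atTop atTop := by
    apply Filter.Tendsto.inv_tendsto_nhdsGT_zero
    rw [tendsto_nhdsWithin_iff]
    exact ⟨h1, Eventually.of_forall (fun n => Real.rpow_pos_of_pos (hx0 n) _)⟩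
  refine h2.congr (fun n => ?_)
  rw [Real.rpow_neg (hx0 n).le, Real.rpow_one, inv_inv]

/-- Few starting points of free windows. -/
theorem few_starts (hA : IsCramer μ A) {x : ℕ → ℝ} (hx0 : ∀ n, 0 < x n)
    (hx : ∀ ε : ℝ, 0 < ε → Summable (fun n => x n ^ (-ε))) {c δ : ℝ} (hc : 0 < c) (hδ : 0 < δ) :
    ∀ᵐ ω ∂μ, ∀ᶠ n in atTop, ((starts (A ω) c (x n)).card : ℝ) < x n ^ (1 - c + δ) := by
  classical
  have hxt := eventually_large hx0 hx
  obtain ⟨D, hD⟩ : ∃ D : ℝ, D = 3 * Real.exp (c * Real.log 3 + 2) := ⟨_, rfl⟩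
  have hD0 : 0 < D := by rw [hD]; positivity
  have hsub : ∀ n, {ω | x n ^ (1 - c + δ) ≤ ((starts (A ω) c (x n)).card : ℝ)} =
      {ω | x n ^ (1 - c + δ) ≤ (((Icc ⌊x n⌋₊ ⌊2 * x n⌋₊).filter (fun m => ω ∈
        {ω | Disjoint (tr A (Ioc m (m + hU c (x n))) ω) (Ioc m (m + hU c (x n)))})).card : ℝ)} := by
    intro n
    ext ω
    simp only [Set.mem_ofPred_eq]
    have h1 : starts (A ω) c (x n) = (Icc ⌊x n⌋₊ ⌊2 * x n⌋₊).filter (fun m =>
        Disjoint (tr A (Ioc m (m + hU c (x n))) ω) (Ioc m (m + hU c (x n)))) := by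
      unfold starts
      apply filter_congr
      intro m _
      rw [Finset.disjoint_left]
      constructor
      · intro h n hn1 hn2
        rw [mem_tr] at hn1
        exact h n hn1.2 (mem_Ioc.1 hn1.1)
      · intro h n hn hcon
        exact h (mem_tr.2 ⟨mem_Ioc.2 hcon, hn⟩) (mem_Ioc.2 hcon)
    rw [h1]
  have hbound : ∀ᶠ n in atTop, μ.real {ω | x n ^ (1 - c + δ) ≤ ((starts (A ω) c (x n)).card : ℝ)} ≤
      D * x n ^ (-δ) := by
    have hlogt : Tendsto (fun n => Real.log (x n)) atTop atTop := Real.tendsto_log_atTop.comp hxt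
    have hsmall : ∀ᶠ n in atTop, c * Real.log (x n) ^ 2 ≤ x n := by
      have h1 := (isLittleO_log_rpow_rpow_atTop (2 : ℝ) (show (0 : ℝ) < 1 by norm_num)).bound
        (show 0 < 1 / c by positivity)
      filter_upwards [hxt.eventually h1, hxt.eventually_ge_atTop 1] with n hn hn1
      have hl : 0 ≤ Real.log (x n) := Real.log_nonneg hn1
      rw [Real.norm_of_nonneg (by positivity), Real.norm_of_nonneg (by positivity), Real.rpow_one] at hn
      rw [show (2 : ℝ) = ((2 : ℕ) : ℝ) by norm_num, Real.rpow_natCast] at hn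
      have := mul_le_mul_of_nonneg_left hn hc.le
      rwa [← mul_assoc, mul_one_div_cancel hc.ne', one_mul] at this
    filter_upwards [hxt.eventually_ge_atTop 8, hsmall, hlogt.eventually_ge_atTop 1] with n hn8 hns hnl
    obtain ⟨L, hL⟩ : ∃ L : ℝ, L = Real.log (x n) := ⟨_, rfl⟩
    have hx0' := hx0 n
    rw [hsub]
    refine (markov (μ := μ) (Icc ⌊x n⌋₊ ⌊2 * x n⌋₊) (fun m =>
      {ω | Disjoint (tr A (Ioc m (m + hU c (x n))) ω) (Ioc m (m + hU c (x n)))}) ?_
      (Real.rpow_pos_of_pos hx0' _)).trans ?_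
    · intro m _
      have h1 : {ω | Disjoint (tr A (Ioc m (m + hU c (x n))) ω) (Ioc m (m + hU c (x n)))} =
          ⋂ k ∈ Ioc m (m + hU c (x n)), {ω | k ∈ A ω}ᶜ := by
        ext ω
        simp only [Set.mem_ofPred_eq, Set.mem_iInter, Set.mem_compl_iff]
        rw [Finset.disjoint_left]
        constructor
        · intro h k hk hkA
          exact h (mem_tr.2 ⟨hk, hkA⟩) hk
        · intro h k hk1 hk2
          exact h k hk2 (mem_tr.1 hk1).2
      rw [h1]
      exact Finset.measurableSet_biInter _ (fun k _ => (hA.random k).compl)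
    · have hlog3 : 0 < Real.log 3 := Real.log_pos (by norm_num)
      have hp : ∀ m ∈ Icc ⌊x n⌋₊ ⌊2 * x n⌋₊,
          μ.real {ω | Disjoint (tr A (Ioc m (m + hU c (x n))) ω) (Ioc m (m + hU c (x n)))} ≤
          Real.exp (c * Real.log 3 + 2) * x n ^ (-c) := by
        intro m hm
        rw [mem_Icc] at hm
        have hm3 : 3 ≤ m := by
          have h1 : 8 ≤ ⌊x n⌋₊ := Nat.le_floor (by exact_mod_cast hn8)
          omega
        rw [real_free hA (fun k hk => by have := (mem_Ioc.1 hk).1; omega)]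
        have hUle : (hU c (x n) : ℝ) ≤ c * L ^ 2 := by
          unfold hU
          have h8 : ((⌊c * Real.log (x n) ^ 2⌋₊ - 1 : ℕ) : ℝ) ≤ (⌊c * Real.log (x n) ^ 2⌋₊ : ℝ) := by
            exact_mod_cast Nat.sub_le _ _
          rw [hL]
          exact h8.trans (Nat.floor_le (by positivity))
        have hUge : c * L ^ 2 - 2 ≤ (hU c (x n) : ℝ) := by
          unfold hU
          have h8 : (⌊c * Real.log (x n) ^ 2⌋₊ : ℝ) ≤ ((⌊c * Real.log (x n) ^ 2⌋₊ - 1 : ℕ) : ℝ) + 1 := by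
            have : ⌊c * Real.log (x n) ^ 2⌋₊ ≤ ⌊c * Real.log (x n) ^ 2⌋₊ - 1 + 1 := by omega
            exact_mod_cast this
          have h9 := Nat.lt_floor_add_one (c * Real.log (x n) ^ 2)
          rw [hL]
          linarith
        have hz : ∀ k ∈ Ioc m (m + hU c (x n)), (k : ℝ) ≤ 3 * x n := by
          intro k hk
          have h1 : ((k : ℕ) : ℝ) ≤ ((m + hU c (x n) : ℕ) : ℝ) := by exact_mod_cast (mem_Ioc.1 hk).2
          push_cast at h1
          have h2 : (m : ℝ) ≤ 2 * x n := by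
            have : (m : ℝ) ≤ (⌊2 * x n⌋₊ : ℝ) := by exact_mod_cast hm.2
            exact this.trans (Nat.floor_le (by positivity))
          rw [hL] at hUle
          linarith
        refine (prod_le_exp (fun k hk => by have := (mem_Ioc.1 hk).1; omega) hz).trans ?_
        rw [Nat.card_Ioc, Nat.add_sub_cancel_left, Real.rpow_def_of_pos hx0', ← Real.exp_add]
        apply Real.exp_le_exp.2
        rw [Real.log_mul (by norm_num) hx0'.ne', ← hL]
        have hL1 : 1 ≤ L := by rw [hL]; exact hnl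
        have hpos : 0 < Real.log 3 + L := by linarith
        have h2 : c * L - c * Real.log 3 - 2 ≤ (hU c (x n) : ℝ) / (Real.log 3 + L) := by
          rw [le_div_iff₀ hpos]
          nlinarith [mul_pos hc hlog3, mul_pos hlog3 hlog3, mul_pos hc (mul_pos hlog3 hlog3)]
        linarith
      have hcard : ((Icc ⌊x n⌋₊ ⌊2 * x n⌋₊).card : ℝ) ≤ 3 * x n := by
        rw [Nat.card_Icc]
        have h1 : ((⌊2 * x n⌋₊ + 1 - ⌊x n⌋₊ : ℕ) : ℝ) ≤ (⌊2 * x n⌋₊ : ℝ) + 1 := by
          have : ⌊2 * x n⌋₊ + 1 - ⌊x n⌋₊ ≤ ⌊2 * x n⌋₊ + 1 := Nat.sub_le _ _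
          exact_mod_cast this
        have h2 : (⌊2 * x n⌋₊ : ℝ) ≤ 2 * x n := Nat.floor_le (by positivity)
        linarith
      have hsum := sum_le_sum hp
      rw [sum_const, nsmul_eq_mul] at hsum
      rw [div_le_iff₀ (Real.rpow_pos_of_pos hx0' _)]
      refine hsum.trans ?_
      have h1 : D * x n ^ (-δ) * x n ^ (1 - c + δ) = 3 * x n * (Real.exp (c * Real.log 3 + 2) * x n ^ (-c)) := by
        have h2 : x n ^ (-δ) * x n ^ (1 - c + δ) = x n * x n ^ (-c) := by
          rw [← Real.rpow_add hx0']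
          nth_rewrite 2 [← Real.rpow_one (x n)]
          rw [← Real.rpow_add hx0']
          congr 1; ring
        rw [hD, mul_assoc, h2]; ring
      rw [h1]
      gcongr
  have hts : ∑' n, μ {ω | x n ^ (1 - c + δ) ≤ ((starts (A ω) c (x n)).card : ℝ)} ≠ ⊤ := by
    obtain ⟨n0, hn0⟩ := eventually_atTop.1 hbound
    have h1 : Summable (fun n => μ.real {ω | x n ^ (1 - c + δ) ≤ ((starts (A ω) c (x n)).card : ℝ)}) := by
      rw [← summable_nat_add_iff n0]
      refine Summable.of_nonneg_of_le (fun n => measureReal_nonneg) (fun n => hn0 (n + n0) (by omega))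
        ((summable_nat_add_iff n0).2 ((hx δ hδ).mul_left D))
    have h2 : ∀ n, μ {ω | x n ^ (1 - c + δ) ≤ ((starts (A ω) c (x n)).card : ℝ)} =
        ENNReal.ofReal (μ.real {ω | x n ^ (1 - c + δ) ≤ ((starts (A ω) c (x n)).card : ℝ)}) := fun n => by
      rw [Measure.real, ENNReal.ofReal_toReal (measure_ne_top μ _)]
    simp_rw [h2]
    exact h1.tsum_ofReal_ne_top
  filter_upwards [ae_eventually_notMem hts] with ω hω
  filter_upwards [hω] with n hn
  exact not_le.1 hn

end Pool.Agent.Q120.MF
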