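import Pool.Agent.Q120.MF.Model

/-!
# Existence of Cramér's model
-/

set_option autoImplicit false

namespace Pool.Agent.Q120.MF

open Finset MeasureTheory Filter Pool.Agent.Q120.ET

/-- The law of the indicator of the event that `n` is chosen. -/
noncomputable def coin (n : ℕ) : Measure Bool :=
  if 3 ≤ n then ENNReal.ofReal (1 / Real.log n) • Measure.dirac true +
    ENNReal.ofReal (1 - 1 / Real.log n) • Measure.dirac false
  else Measure.dirac false

theorem inv_log_mem {n : ℕ} (hn : 3 ≤ n) : 0 < 1 / Real.log (n : ℝ) ∧ 1 / Real.log (n : ℝ) < 1 := by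
  have h1 := one_lt_log hn
  constructor
  · have : 0 < Real.log (n : ℝ) := by linarith
    positivity
  · rw [div_lt_one (by linarith)]; exact h1

instance (n : ℕ) : IsProbabilityMeasure (coin n) := by
  unfold coin
  split_ifs with h
  · obtain ⟨h1, h2⟩ := inv_log_mem h
    refine ⟨?_⟩
    rw [Measure.add_apply, Measure.smul_apply, Measure.smul_apply, measure_univ, measure_univ,
      smul_eq_mul, smul_eq_mul, mul_one, mul_one, ← ENNReal.ofReal_add h1.le (by linarith)]
    simp
  · infer_instance

/-- The product measure of Cramér's model. -/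
noncomputable def cramerMeasure : Measure (ℕ → Bool) := Measure.infinitePi coin

instance : IsProbabilityMeasure cramerMeasure := by unfold cramerMeasure; infer_instance

/-- The random set. -/
def cramerSet (ω : ℕ → Bool) : Set ℕ := {n | ω n = true}

theorem isCramer : IsCramer cramerMeasure cramerSet := by
  classical
  refine ⟨fun n => ?_, fun B T hB hT => ?_⟩
  · have h1 : {ω : ℕ → Bool | n ∈ cramerSet ω} = (fun ω => ω n) ⁻¹' {true} := rfl
    rw [h1]
    exact (measurable_pi_apply n) (MeasurableSet.singleton _)
  · have h1 : {ω : ℕ → Bool | ∀ n ∈ B, (n ∈ cramerSet ω ↔ n ∈ T)} =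
        Set.pi (B : Set ℕ) (fun n => {b : Bool | b = true ↔ n ∈ T}) := by
      ext ω
      simp [cramerSet, Set.mem_pi]
    rw [lawOn, Measure.real, h1, cramerMeasure, Measure.infinitePi_pi _ (fun _ _ => MeasurableSet.of_discrete),
      ENNReal.toReal_prod]
    unfold cramerOn
    rw [← prod_sdiff hT, mul_comm]
    congr 1
    · refine prod_congr rfl (fun n hn => ?_)
      obtain ⟨h2, h3⟩ := inv_log_mem (hB n (hT hn))
      unfold coin
      rw [if_pos (hB n (hT hn)), Measure.add_apply, Measure.smul_apply, Measure.smul_apply]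
      rw [Measure.dirac_apply' _ MeasurableSet.of_discrete, Measure.dirac_apply' _ MeasurableSet.of_discrete]
      simp [hn, ENNReal.toReal_ofReal, Real.log_natCast_nonneg]
    · refine prod_congr rfl (fun n hn => ?_)
      obtain ⟨hn1, hn2⟩ := mem_sdiff.1 hn
      obtain ⟨h2, h3⟩ := inv_log_mem (hB n hn1)
      unfold coin
      rw [if_pos (hB n hn1), Measure.add_apply, Measure.smul_apply, Measure.smul_apply]
      rw [Measure.dirac_apply' _ MeasurableSet.of_discrete, Measure.dirac_apply' _ MeasurableSet.of_discrete]
      have h4 : 0 ≤ 1 - (Real.log (n : ℝ))⁻¹ := by rw [← one_div]; linarith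
      simp [hn2, ENNReal.toReal_ofReal, h4]

end Pool.Agent.Q120.MF
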