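import Pool.Agent.Q120.MF.Events

/-!
# Every short interval contains a free window in Cramér's model
-/

set_option autoImplicit false

namespace Pool.Agent.Q120.MF

open Finset MeasureTheory Filter Pool.Agent.Q120.ET

/-- Length of the windows for the lower bound. -/
noncomputable def kL (c x : ℝ) : ℕ := ⌈c * Real.log x ^ 2⌉₊ + 1

/-- Every window of length `4 x ^ (θ - 1)` in `[1, 2]` contains an interval `[m / x, (m + 1) / x]` such that
`(m, m + kL]` is free. -/
def Hits (S : Set ℕ) (c θ x : ℝ) : Prop :=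
  ∀ w : ℝ, 1 ≤ w → w + 4 * x ^ (θ - 1) ≤ 2 → ∃ m : ℕ, w * x ≤ m ∧ (m : ℝ) + 1 ≤ (w + 4 * x ^ (θ - 1)) * x ∧
    ∀ n ∈ S, ¬ (m < n ∧ n ≤ m + kL c x)

theorem ev_logpow {x : ℕ → ℝ} (hxt : Tendsto x atTop atTop) (D ε : ℝ) (hε : 0 < ε) :
    ∀ᶠ n in atTop, D * Real.log (x n) ^ 4 ≤ x n ^ ε := by
  have h1 := (isLittleO_log_rpow_rpow_atTop (4 : ℝ) hε).bound (show (0 : ℝ) < 1 / (|D| + 1) by positivity)
  filter_upwards [hxt.eventually h1, hxt.eventually_ge_atTop 1] with n hn hn1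
  have hlog : 0 ≤ Real.log (x n) := Real.log_nonneg hn1
  have hx0 : 0 ≤ x n := by linarith
  rw [Real.norm_of_nonneg (by positivity), Real.norm_of_nonneg (by positivity)] at hn
  have h4 : Real.log (x n) ^ (4 : ℝ) = Real.log (x n) ^ 4 := by
    rw [← Real.rpow_natCast]; norm_num
  rw [h4] at hn
  have h5 : (|D| + 1) * Real.log (x n) ^ 4 ≤ x n ^ ε := by
    have := mul_le_mul_of_nonneg_left hn (show 0 ≤ |D| + 1 by positivity)
    rwa [← mul_assoc, mul_one_div_cancel (by positivity), one_mul] at this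
  have h6 : D * Real.log (x n) ^ 4 ≤ (|D| + 1) * Real.log (x n) ^ 4 :=
    mul_le_mul_of_nonneg_right (by linarith [le_abs_self D]) (by positivity)
  linarith

variable {Ω : Type*} [MeasurableSpace Ω] {μ : Measure Ω} [IsProbabilityMeasure μ] {A : Ω → Set ℕ}

theorem hits (hA : IsCramer μ A) {x : ℕ → ℝ} (hx0 : ∀ n, 0 < x n)
    (hx : ∀ ε : ℝ, 0 < ε → Summable (fun n => x n ^ (-ε))) {c θ : ℝ} (hc : 0 < c) (hθ : c < θ) (hθ1 : θ < 1) :
    ∀ᵐ ω ∂μ, ∀ᶠ n in atTop, Hits (A ω) c θ (x n) := by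
  classical
  have hxt := eventually_large hx0 hx
  have hlogt : Tendsto (fun n => Real.log (x n)) atTop atTop := Real.tendsto_log_atTop.comp hxt
  obtain ⟨δ, hδ⟩ : ∃ δ : ℝ, δ = (θ - c) / (2 * c) := ⟨_, rfl⟩
  have hδ0 : 0 < δ := by rw [hδ]; apply div_pos <;> linarith
  obtain ⟨c', hc'⟩ : ∃ c' : ℝ, c' = (1 + δ) * c := ⟨_, rfl⟩
  have hc'2 : c' = (c + θ) / 2 := by rw [hc', hδ]; field_simp; ring
  have hc'θ : 0 < θ - c' := by rw [hc'2]; linarith
  -- the parameters
  obtain ⟨L, hL⟩ : ∃ L : ℕ → ℕ, L = fun n => ⌊x n ^ θ⌋₊ := ⟨_, rfl⟩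
  obtain ⟨k, hk⟩ : ∃ k : ℕ → ℕ, k = fun n => kL c (x n) := ⟨_, rfl⟩
  obtain ⟨N, hN⟩ : ∃ N : ℕ → ℕ, N = fun n => L n / k n := ⟨_, rfl⟩
  have hLn : ∀ n, L n = ⌊x n ^ θ⌋₊ := fun n => by rw [hL]
  have hkn : ∀ n, k n = kL c (x n) := fun n => by rw [hk]
  have hNn : ∀ n, N n = L n / k n := fun n => by rw [hN]
  have hkpos : ∀ n, 0 < k n := fun n => by rw [hkn]; unfold kL; omega
  obtain ⟨B, hB⟩ : ∃ B : ℕ → ℕ → Finset ℕ, B = fun n j => Ioc (j * L n) (j * L n + L n) := ⟨_, rfl⟩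
  have hBn : ∀ n j, B n j = Ioc (j * L n) (j * L n + L n) := fun n j => by rw [hB]
  obtain ⟨W, hW⟩ : ∃ W : ℕ → ℕ → ℕ → Finset ℕ, W = fun n j i =>
      Ioc (j * L n + i * k n) (j * L n + i * k n + k n) := ⟨_, rfl⟩
  have hWn : ∀ n j i, W n j i = Ioc (j * L n + i * k n) (j * L n + i * k n + k n) := fun n j i => by rw [hW]
  have hsub : ∀ n j, ∀ i ∈ range (N n), W n j i ⊆ B n j := by
    intro n j i hi a ha
    have h1 : (i + 1) * k n ≤ N n * k n := Nat.mul_le_mul_right _ (mem_range.1 hi)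
    have h2 : N n * k n ≤ L n := by rw [hNn]; exact Nat.div_mul_le_self _ _
    have h3 : (i + 1) * k n = i * k n + k n := by ring
    rw [hWn, mem_Ioc] at ha
    rw [hBn, mem_Ioc]
    omega
  obtain ⟨J, hJ⟩ : ∃ J : ℕ → Finset ℕ, J = fun n => (range (⌊2 * x n⌋₊ + 1)).filter
      (fun j => x n ≤ ((j * L n : ℕ) : ℝ)) := ⟨_, rfl⟩
  have hJn : ∀ n, J n = (range (⌊2 * x n⌋₊ + 1)).filter (fun j => x n ≤ ((j * L n : ℕ) : ℝ)) :=
    fun n => by rw [hJ]
  have hbound : ∀ᶠ n in atTop, μ.real {ω | ∃ j ∈ J n, ∀ i ∈ range (N n),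
      ¬ Disjoint (tr A (B n j) ω) (W n j i)} ≤ x n ^ (-(1 : ℝ)) := by
    filter_upwards [hxt.eventually_ge_atTop 8, hlogt.eventually_ge_atTop 1,
      hlogt.eventually_ge_atTop ((1 + δ) / δ),
      ev_logpow hxt (8 * Real.exp (2 * (1 + δ)) * (c + 3)) (θ - c') hc'θ,
      ev_logpow hxt (2 * (c + 3)) θ (by linarith)] with n hn8 hnl hnδ hn1 hn2
    obtain ⟨ℓ, hℓ⟩ : ∃ ℓ : ℝ, ℓ = Real.log (x n) := ⟨_, rfl⟩
    rw [← hℓ] at hnl hnδ hn1 hn2
    have hℓ0 : 0 < ℓ := by linarith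
    have hx0' := hx0 n
    have hℓ2 : 1 ≤ ℓ ^ 2 := one_le_pow₀ hnl
    have hℓ24 : ℓ ^ 2 ≤ ℓ ^ 4 := pow_le_pow_right₀ hnl (by norm_num)
    have hℓ34 : ℓ ^ 3 ≤ ℓ ^ 4 := pow_le_pow_right₀ hnl (by norm_num)
    have hk1 : (k n : ℝ) ≤ c * ℓ ^ 2 + 2 := by
      rw [hkn]; unfold kL
      have := (Nat.ceil_lt_add_one (show 0 ≤ c * Real.log (x n) ^ 2 by positivity)).le
      push_cast
      rw [← hℓ] at this ⊢
      linarith
    have hk2 : (k n : ℝ) ≤ (c + 2) * ℓ ^ 2 := by linarith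
    have hk0 : (1 : ℝ) ≤ k n := by exact_mod_cast hkpos n
    have hxθ : 2 * (c + 3) * ℓ ^ 4 ≤ x n ^ θ := hn2
    have hNge : x n ^ θ / (2 * ((c + 3) * ℓ ^ 2)) ≤ N n := by
      have h1 : x n ^ θ < (L n : ℝ) + 1 := by rw [hLn]; exact Nat.lt_floor_add_one _
      have h2 : (L n : ℝ) < (N n + 1) * k n := by
        have := Nat.lt_div_mul_add (a := L n) (b := k n) (hkpos n)
        rw [← hNn] at this
        have h3 : ((L n : ℕ) : ℝ) < ((N n * k n + k n : ℕ) : ℝ) := by exact_mod_cast this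
        push_cast at h3
        linarith
      rw [div_le_iff₀ (by positivity)]
      have h3 : (k n : ℝ) + 1 ≤ (c + 3) * ℓ ^ 2 := by linarith
      have h4 : (c + 3) * ℓ ^ 2 ≤ (c + 3) * ℓ ^ 4 := by gcongr
      have h5 : (N n : ℝ) * k n ≤ N n * ((c + 3) * ℓ ^ 2) := by gcongr; linarith
      linarith
    have hw : ∀ j ∈ J n, ∀ i ∈ range (N n),
        Real.exp (-(2 * (1 + δ))) * x n ^ (-c') ≤ ∏ a ∈ W n j i, (1 - 1 / Real.log (a : ℝ)) := by
      intro j hj i _
      rw [hJn, mem_filter] at hj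
      have h1 := exp_le_prod (W := W n j i) (y := x n) (δ := δ) (by rw [← hℓ]; exact hℓ0) hx0' (by
        intro a ha
        rw [hWn, mem_Ioc] at ha
        have h2 : ((j * L n : ℕ) : ℝ) ≤ a := by
          have : j * L n ≤ a := by omega
          exact_mod_cast this
        linarith [hj.2]) hδ0 (by
          rw [← hℓ]
          rw [div_le_iff₀ hδ0] at hnδ
          linarith)
      refine le_trans ?_ h1
      rw [hWn, Nat.card_Ioc, Nat.add_sub_cancel_left, ← hℓ, Real.rpow_def_of_pos hx0', ← hℓ, ← Real.exp_add]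
      apply Real.exp_le_exp.2
      have h2 : (1 + δ) * (k n : ℝ) / ℓ ≤ (1 + δ) * (c * ℓ ^ 2 + 2) / ℓ := by gcongr
      have h3 : (1 + δ) * (c * ℓ ^ 2 + 2) / ℓ = (1 + δ) * c * ℓ + (1 + δ) * 2 / ℓ := by field_simp
      have h4 : (1 + δ) * 2 / ℓ ≤ (1 + δ) * 2 := div_le_self (by positivity) hnl
      rw [hc']
      nlinarith
    have hj : ∀ j ∈ J n, μ.real {ω | ∀ i ∈ range (N n), ¬ Disjoint (tr A (B n j) ω) (W n j i)} ≤
        Real.exp (-(4 * ℓ)) := by
      intro j hj
      have hj' := hj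
      rw [hJn, mem_filter] at hj'
      have hBge : ∀ a ∈ B n j, 3 ≤ a := by
        intro a ha
        rw [hBn, mem_Ioc] at ha
        have h2 : (8 : ℝ) ≤ ((j * L n : ℕ) : ℝ) := hn8.trans hj'.2
        have h3 : 8 ≤ j * L n := by exact_mod_cast h2
        omega
      rw [real_no_free hA hBge (range (N n)) (W n j) (hsub n j) (by
        intro i _ i' _ hii
        rw [hWn, hWn, Finset.disjoint_left]
        intro a ha1 ha2
        rw [mem_Ioc] at ha1 ha2
        rcases lt_or_gt_of_ne hii with h2 | h2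
        · have h3 : (i + 1) * k n ≤ i' * k n := Nat.mul_le_mul_right _ h2
          have h4 : (i + 1) * k n = i * k n + k n := by ring
          omega
        · have h3 : (i' + 1) * k n ≤ i * k n := Nat.mul_le_mul_right _ h2
          have h4 : (i' + 1) * k n = i' * k n + k n := by ring
          omega)]
      obtain ⟨w, hwdef⟩ : ∃ w : ℝ, w = Real.exp (-(2 * (1 + δ))) * x n ^ (-c') := ⟨_, rfl⟩
      have hw0 : 0 < w := by rw [hwdef]; positivity
      have h1 : ∏ i ∈ range (N n), (1 - ∏ a ∈ W n j i, (1 - 1 / Real.log (a : ℝ))) ≤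
          ∏ i ∈ range (N n), Real.exp (-w) := by
        apply Finset.prod_le_prod
        · intro i hi
          have h2 : ∏ a ∈ W n j i, (1 - 1 / Real.log (a : ℝ)) ≤ 1 := by
            apply prod_le_one
            · intro a ha
              have h3 := one_lt_log (hBge a (hsub n j i hi ha))
              have : 1 / Real.log (a : ℝ) < 1 := by rw [div_lt_one (by linarith)]; exact h3
              linarith
            · intro a ha
              have h3 := one_lt_log (hBge a (hsub n j i hi ha))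
              have : 0 < 1 / Real.log (a : ℝ) := by
                have : 0 < Real.log (a : ℝ) := by linarith
                positivity
              linarith
          linarith
        · intro i hi
          have h2 := hw j hj i hi
          rw [← hwdef] at h2
          have := Real.one_sub_le_exp_neg w
          linarith
      refine h1.trans ?_
      rw [prod_const, card_range, ← Real.exp_nat_mul]
      apply Real.exp_le_exp.2
      have h2 : 4 * ℓ ≤ N n * w := by
        have h3 : x n ^ θ / (2 * ((c + 3) * ℓ ^ 2)) * w ≤ N n * w := by gcongr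
        refine le_trans ?_ h3
        rw [hwdef, div_mul_eq_mul_div, le_div_iff₀ (by positivity)]
        have h4 : x n ^ θ * (Real.exp (-(2 * (1 + δ))) * x n ^ (-c')) =
            Real.exp (-(2 * (1 + δ))) * x n ^ (θ - c') := by
          rw [sub_eq_add_neg, Real.rpow_add hx0']; ring
        rw [h4]
        have h5 : Real.exp (-(2 * (1 + δ))) * (8 * Real.exp (2 * (1 + δ)) * (c + 3) * ℓ ^ 4) ≤
            Real.exp (-(2 * (1 + δ))) * x n ^ (θ - c') := by gcongr
        refine le_trans ?_ h5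
        have h6 : Real.exp (-(2 * (1 + δ))) * Real.exp (2 * (1 + δ)) = 1 := by
          rw [← Real.exp_add, ← Real.exp_zero]; congr 1; ring
        have h7 : Real.exp (-(2 * (1 + δ))) * (8 * Real.exp (2 * (1 + δ)) * (c + 3) * ℓ ^ 4) =
            (Real.exp (-(2 * (1 + δ))) * Real.exp (2 * (1 + δ))) * (8 * (c + 3) * ℓ ^ 4) := by ring
        rw [h7, h6, one_mul]
        calc 4 * ℓ * (2 * ((c + 3) * ℓ ^ 2)) = 8 * (c + 3) * ℓ ^ 3 := by ring
          _ ≤ 8 * (c + 3) * ℓ ^ 4 := by gcongr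
      linarith
    have hunion : {ω | ∃ j ∈ J n, ∀ i ∈ range (N n), ¬ Disjoint (tr A (B n j) ω) (W n j i)} =
        ⋃ j ∈ J n, {ω | ∀ i ∈ range (N n), ¬ Disjoint (tr A (B n j) ω) (W n j i)} := by
      ext ω; simp
    rw [hunion]
    refine (measureReal_biUnion_finset_le _ _).trans ?_
    refine (sum_le_sum hj).trans ?_
    rw [sum_const, nsmul_eq_mul]
    have hcard : ((J n).card : ℝ) ≤ 3 * x n := by
      have h1 : (J n).card ≤ ⌊2 * x n⌋₊ + 1 := by
        rw [hJn]
        refine (card_filter_le _ _).trans ?_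
        rw [card_range]
      have h2 : ((J n).card : ℝ) ≤ (⌊2 * x n⌋₊ : ℝ) + 1 := by exact_mod_cast h1
      have h3 : (⌊2 * x n⌋₊ : ℝ) ≤ 2 * x n := Nat.floor_le (by positivity)
      linarith
    have hexp : Real.exp (-(4 * ℓ)) = x n ^ (-(4 : ℝ)) := by
      rw [Real.rpow_def_of_pos hx0', ← hℓ]; congr 1; ring
    rw [hexp]
    have h1 : 3 * x n * x n ^ (-(4 : ℝ)) ≤ x n ^ (-(1 : ℝ)) := by
      have h2 : x n ^ (-(1 : ℝ)) = x n ^ (3 : ℝ) * x n ^ (-(4 : ℝ)) := by
        rw [← Real.rpow_add hx0']; norm_num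
      have h3 : 3 * x n ≤ x n ^ (3 : ℝ) := by
        rw [show (3 : ℝ) = ((3 : ℕ) : ℝ) by norm_num, Real.rpow_natCast]
        push_cast
        nlinarith [mul_pos hx0' hx0']
      rw [h2]
      gcongr
    refine le_trans ?_ h1
    gcongr
  have hts : ∑' n, μ {ω | ∃ j ∈ J n, ∀ i ∈ range (N n), ¬ Disjoint (tr A (B n j) ω) (W n j i)} ≠ ⊤ := by
    obtain ⟨n0, hn0⟩ := eventually_atTop.1 hbound
    have h1 : Summable (fun n => μ.real {ω | ∃ j ∈ J n, ∀ i ∈ range (N n),
        ¬ Disjoint (tr A (B n j) ω) (W n j i)}) := by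
      rw [← summable_nat_add_iff n0]
      refine Summable.of_nonneg_of_le (fun n => measureReal_nonneg) (fun n => hn0 (n + n0) (by omega))
        ((summable_nat_add_iff n0).2 (hx 1 one_pos))
    have h2 : ∀ n, μ {ω | ∃ j ∈ J n, ∀ i ∈ range (N n), ¬ Disjoint (tr A (B n j) ω) (W n j i)} =
        ENNReal.ofReal (μ.real {ω | ∃ j ∈ J n, ∀ i ∈ range (N n),
          ¬ Disjoint (tr A (B n j) ω) (W n j i)}) := fun n => by
      rw [Measure.real, ENNReal.ofReal_toReal (measure_ne_top μ _)]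
    simp_rw [h2]
    exact h1.tsum_ofReal_ne_top
  filter_upwards [ae_eventually_notMem hts] with ω hω
  filter_upwards [hω, hxt.eventually_ge_atTop 8] with n hn hn8
  have hx0' := hx0 n
  intro w hw1 hw2
  have hLpos : 0 < L n := by
    rw [hLn]
    apply Nat.floor_pos.2
    exact Real.one_le_rpow (by linarith) (by linarith)
  have hLle : (L n : ℝ) ≤ x n ^ θ := by rw [hLn]; exact Nat.floor_le (by positivity)
  have hL1 : (1 : ℝ) ≤ L n := by exact_mod_cast hLpos
  have hxθ : x n ^ (θ - 1) * x n = x n ^ θ := by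
    rw [Real.rpow_sub hx0', Real.rpow_one]; field_simp
  have hwx : (w + 4 * x n ^ (θ - 1)) * x n = w * x n + 4 * x n ^ θ := by
    rw [add_mul, mul_assoc, hxθ]
  -- the block
  obtain ⟨j, hj⟩ : ∃ j : ℕ, j = ⌈w * x n / L n⌉₊ := ⟨_, rfl⟩
  have hj1 : w * x n ≤ ((j * L n : ℕ) : ℝ) := by
    have h1 : w * x n / L n ≤ j := by rw [hj]; exact Nat.le_ceil _
    rw [div_le_iff₀ (by linarith)] at h1
    push_cast
    exact h1
  have hj2 : ((j * L n : ℕ) : ℝ) ≤ w * x n + L n := by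
    have h1 : (j : ℝ) < w * x n / L n + 1 := by
      rw [hj]
      exact Nat.ceil_lt_add_one (by
        have : 0 ≤ w * x n := mul_nonneg (by linarith) hx0'.le
        positivity)
    have h2 : (j : ℝ) * L n ≤ (w * x n / L n + 1) * L n := by gcongr
    have h3 : (w * x n / L n + 1) * L n = w * x n + L n := by field_simp
    push_cast
    linarith
  have hjJ : j ∈ J n := by
    rw [hJn, mem_filter, mem_range]
    constructor
    · have h1 : (j : ℝ) ≤ 2 * x n := by
        have h2 : (j : ℝ) * 1 ≤ j * L n := by gcongr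
        have h3 : ((j * L n : ℕ) : ℝ) ≤ 2 * x n := by
          have h4 : w * x n + 4 * x n ^ θ ≤ 2 * x n := by
            rw [← hwx]; gcongr
          have h5 : 0 ≤ x n ^ θ := by positivity
          linarith
        push_cast at h3
        linarith
      have h2 : j ≤ ⌊2 * x n⌋₊ := Nat.le_floor h1
      omega
    · have : x n ≤ w * x n := by nlinarith
      linarith
  have h1 : ¬ ∀ i ∈ range (N n), ¬ Disjoint (tr A (B n j) ω) (W n j i) := fun h => hn ⟨j, hjJ, h⟩
  push Not at h1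
  obtain ⟨i, hi, hdis⟩ := h1
  refine ⟨j * L n + i * k n, ?_, ?_, ?_⟩
  · refine hj1.trans ?_
    have : j * L n ≤ j * L n + i * k n := by omega
    exact_mod_cast this
  · rw [hwx]
    have h2 : i * k n ≤ L n := by
      have h3 : i * k n ≤ N n * k n := Nat.mul_le_mul_right _ (mem_range.1 hi).le
      have h4 : N n * k n ≤ L n := by rw [hNn]; exact Nat.div_mul_le_self _ _
      omega
    have h3 : ((i * k n : ℕ) : ℝ) ≤ L n := by exact_mod_cast h2
    push_cast at h3 hj2 ⊢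
    have h4 : 0 ≤ x n ^ θ := by positivity
    have h5 : 1 ≤ x n ^ θ := Real.one_le_rpow (by linarith) (by linarith)
    linarith
  · rw [← hkn]
    intro m hm hcon
    rw [Finset.disjoint_left] at hdis
    have h2 : m ∈ W n j i := by rw [hWn, mem_Ioc]; exact hcon
    exact hdis (mem_tr.2 ⟨hsub n j i hi h2, hm⟩) h2

end Pool.Agent.Q120.MF
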