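import Pool.Agent.Q120.ET.Law

/-!
# Cramér's model: windows
-/

set_option autoImplicit false

namespace Pool.Agent.Q120.MF

open Finset MeasureTheory Filter Pool.Agent.Q120.ET

/-- `A` is a random set of integers in which the integers `n ≥ 3` are chosen independently with the
probabilities `1 / log n` (Cramér's model). -/
structure IsCramer {Ω : Type*} [MeasurableSpace Ω] (μ : Measure Ω) (A : Ω → Set ℕ) : Prop where
  random : IsRandomSet A
  law : ∀ B T : Finset ℕ, (∀ n ∈ B, 3 ≤ n) → T ⊆ B → lawOn μ A B T = cramerOn B T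

variable {Ω : Type*} [MeasurableSpace Ω] {μ : Measure Ω} [IsProbabilityMeasure μ] {A : Ω → Set ℕ}

/-- The exact probability that none of some disjoint windows is free. -/
theorem no_free_exact {ι : Type*} [DecidableEq ι] {B : Finset ℕ} (I : Finset ι) (W : ι → Finset ℕ)
    (hW : ∀ i ∈ I, W i ⊆ B) (hd : ∀ i ∈ I, ∀ j ∈ I, i ≠ j → Disjoint (W i) (W j)) :
    ∑ T ∈ B.powerset with (∀ i ∈ I, ¬ Disjoint T (W i)), cramerOn B T =
      ∏ i ∈ I, (1 - ∏ n ∈ W i, (1 - 1 / Real.log (n : ℝ))) := by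
  classical
  have h1 : ∀ T, (if (∀ i ∈ I, ¬ Disjoint T (W i)) then cramerOn B T else 0) =
      ∑ J ∈ I.powerset, (-1) ^ J.card * (cramerOn B T * (if Disjoint T (J.biUnion W) then 1 else 0)) := by
    intro T
    have h2 : ∏ i ∈ I, (1 + -(if Disjoint T (W i) then (1 : ℝ) else 0)) =
        ∑ J ∈ I.powerset, ∏ i ∈ J, -(if Disjoint T (W i) then (1 : ℝ) else 0) := prod_one_add I
    have h3 : ∀ J ∈ I.powerset, ∏ i ∈ J, -(if Disjoint T (W i) then (1 : ℝ) else 0) =
        (-1) ^ J.card * (if Disjoint T (J.biUnion W) then 1 else 0) := by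
      intro J _
      by_cases h4 : Disjoint T (J.biUnion W)
      · rw [if_pos h4]
        rw [Finset.disjoint_biUnion_right] at h4
        have h5 : ∀ i ∈ J, -(if Disjoint T (W i) then (1 : ℝ) else 0) = -1 := by
          intro i hi
          rw [if_pos (h4 i hi)]
        rw [prod_congr rfl h5, prod_const]; ring
      · rw [if_neg h4]
        rw [Finset.disjoint_biUnion_right] at h4
        push Not at h4
        obtain ⟨i, hi, h5⟩ := h4
        rw [prod_eq_zero hi (by rw [if_neg h5]; simp)]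
        ring
    rw [sum_congr rfl h3] at h2
    by_cases h6 : ∀ i ∈ I, ¬ Disjoint T (W i)
    · rw [if_pos h6]
      have h7 : ∏ i ∈ I, (1 + -(if Disjoint T (W i) then (1 : ℝ) else 0)) = 1 := by
        apply prod_eq_one
        intro i hi
        rw [if_neg (h6 i hi)]; ring
      rw [h7] at h2
      calc cramerOn B T = cramerOn B T * ∑ J ∈ I.powerset,
            (-1) ^ J.card * (if Disjoint T (J.biUnion W) then (1 : ℝ) else 0) := by rw [← h2, mul_one]
        _ = _ := by
          rw [mul_sum]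
          refine sum_congr rfl (fun J _ => by ring)
    · rw [if_neg h6]
      push Not at h6
      obtain ⟨i, hi, h8⟩ := h6
      have h7 : ∏ i ∈ I, (1 + -(if Disjoint T (W i) then (1 : ℝ) else 0)) = 0 := by
        apply prod_eq_zero hi
        rw [if_pos h8]; ring
      rw [h7] at h2
      calc (0 : ℝ) = cramerOn B T * ∑ J ∈ I.powerset,
            (-1) ^ J.card * (if Disjoint T (J.biUnion W) then (1 : ℝ) else 0) := by rw [← h2, mul_zero]
        _ = _ := by
          rw [mul_sum]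
          refine sum_congr rfl (fun J _ => by ring)
  rw [sum_filter]
  simp_rw [h1]
  rw [sum_comm]
  have h9 : ∀ J ∈ I.powerset, ∑ T ∈ B.powerset,
      (-1) ^ J.card * (cramerOn B T * (if Disjoint T (J.biUnion W) then (1 : ℝ) else 0)) =
      ∏ i ∈ J, -(∏ n ∈ W i, (1 - 1 / Real.log (n : ℝ))) := by
    intro J hJ
    rw [mem_powerset] at hJ
    rw [← mul_sum]
    have h10 : ∑ T ∈ B.powerset, cramerOn B T * (if Disjoint T (J.biUnion W) then (1 : ℝ) else 0) =
        ∏ i ∈ J, ∏ n ∈ W i, (1 - 1 / Real.log (n : ℝ)) := by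
      rw [← prod_biUnion (fun i hi j hj hij => hd i (hJ hi) j (hJ hj) hij),
        ← sum_free (biUnion_subset.2 (fun i hi => hW i (hJ hi))), sum_filter]
      refine sum_congr rfl (fun T _ => ?_)
      split_ifs <;> ring
    rw [h10]
    rw [prod_neg]
  rw [sum_congr rfl h9, ← prod_one_add]
  refine prod_congr rfl (fun i _ => by ring)

/-- Probability of a free window. -/
theorem real_free (hA : IsCramer μ A) {W : Finset ℕ} (hW : ∀ n ∈ W, 3 ≤ n) :
    μ.real {ω | Disjoint (tr A W ω) W} = ∏ n ∈ W, (1 - 1 / Real.log (n : ℝ)) := by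
  rw [real_event hA.random W (fun T => Disjoint T W), ← sum_free (Subset.refl W)]
  refine sum_congr rfl (fun T hT => ?_)
  exact hA.law W T hW (mem_powerset.1 (mem_filter.1 hT).1)

/-- Probability that no window of a family is free. -/
theorem real_no_free {ι : Type*} [DecidableEq ι] (hA : IsCramer μ A) {B : Finset ℕ} (hB : ∀ n ∈ B, 3 ≤ n)
    (I : Finset ι) (W : ι → Finset ℕ)
    (hW : ∀ i ∈ I, W i ⊆ B) (hd : ∀ i ∈ I, ∀ j ∈ I, i ≠ j → Disjoint (W i) (W j)) :
    μ.real {ω | ∀ i ∈ I, ¬ Disjoint (tr A B ω) (W i)} =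
      ∏ i ∈ I, (1 - ∏ n ∈ W i, (1 - 1 / Real.log (n : ℝ))) := by
  classical
  rw [real_event hA.random B (fun T => ∀ i ∈ I, ¬ Disjoint T (W i)), ← no_free_exact I W hW hd]
  refine sum_congr rfl (fun T hT => ?_)
  exact hA.law B T hB (mem_powerset.1 (mem_filter.1 hT).1)

theorem prod_le_exp {W : Finset ℕ} (hW : ∀ n ∈ W, 3 ≤ n) {z : ℝ} (hz : ∀ n ∈ W, (n : ℝ) ≤ z) :
    ∏ n ∈ W, (1 - 1 / Real.log (n : ℝ)) ≤ Real.exp (-(W.card / Real.log z)) := by
  have h1 : ∀ n ∈ W, 1 - 1 / Real.log (n : ℝ) ≤ Real.exp (-(1 / Real.log z)) := by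
    intro n hn
    have h3 := one_lt_log (hW n hn)
    have h6 : (0 : ℝ) < n := by
      have : 0 < n := by have := hW n hn; omega
      exact_mod_cast this
    have h4 := Real.log_le_log h6 (hz n hn)
    have h5 : 1 / Real.log z ≤ 1 / Real.log n := one_div_le_one_div_of_le (by linarith) h4
    have := Real.one_sub_le_exp_neg (1 / Real.log z)
    linarith
  have h2 := Finset.prod_le_prod (f := fun n : ℕ => 1 - 1 / Real.log (n : ℝ))
    (g := fun _ => Real.exp (-(1 / Real.log z))) (s := W) (fun n hn => by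
      have h3 := one_lt_log (hW n hn)
      have : 1 / Real.log (n : ℝ) < 1 := by rw [div_lt_one (by linarith)]; exact h3
      linarith) h1
  refine h2.trans (le_of_eq ?_)
  rw [prod_const, ← Real.exp_nat_mul]
  congr 1
  ring

theorem exp_le_prod {W : Finset ℕ} {y δ : ℝ} (hy : 0 < Real.log y) (hy0 : 0 < y) (hW : ∀ n ∈ W, y ≤ n)
    (hδ : 0 < δ) (hδy : 1 + δ ≤ δ * Real.log y) :
    Real.exp (-((1 + δ) * W.card / Real.log y)) ≤ ∏ n ∈ W, (1 - 1 / Real.log (n : ℝ)) := by
  have h1 : ∀ n ∈ W, Real.exp (-((1 + δ) / Real.log y)) ≤ 1 - 1 / Real.log (n : ℝ) := by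
    intro n hn
    have h4 : Real.log y ≤ Real.log n := Real.log_le_log hy0 (hW n hn)
    obtain ⟨t, ht⟩ : ∃ t : ℝ, t = 1 / Real.log y := ⟨_, rfl⟩
    have ht0 : 0 < t := by rw [ht]; positivity
    have htδ : (1 + δ) * t ≤ δ := by
      rw [ht, mul_one_div, div_le_iff₀ hy]
      exact hδy
    have ht1 : t < 1 := by nlinarith
    have h5 : 1 / Real.log n ≤ t := by
      rw [ht]
      exact one_div_le_one_div_of_le hy h4
    have h6 : Real.exp (-((1 + δ) * t)) ≤ 1 - t := by
      rw [← Real.le_log_iff_exp_le (by linarith)]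
      have h7 := Real.one_sub_inv_le_log_of_pos (show 0 < 1 - t by linarith)
      refine le_trans ?_ h7
      have h8 : (1 - t)⁻¹ ≤ 1 + (1 + δ) * t := by
        rw [inv_le_iff_one_le_mul₀ (by linarith)]
        nlinarith
      linarith
    have h7 : (1 + δ) / Real.log y = (1 + δ) * t := by rw [ht]; ring
    rw [h7]
    linarith
  have h2 := Finset.prod_le_prod (f := fun _ : ℕ => Real.exp (-((1 + δ) / Real.log y)))
    (g := fun n : ℕ => 1 - 1 / Real.log (n : ℝ)) (s := W) (fun n hn => by positivity) h1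
  refine le_trans (le_of_eq ?_) h2
  rw [prod_const, ← Real.exp_nat_mul]
  congr 1
  ring

/-- Markov's inequality for the number of events. -/
theorem markov {ι : Type*} (I : Finset ι) (E : ι → Set Ω) (hE : ∀ i ∈ I, MeasurableSet (E i))
    [∀ ω, DecidablePred (fun i => ω ∈ E i)] {t : ℝ} (ht : 0 < t) :
    μ.real {ω | t ≤ ((I.filter (fun i => ω ∈ E i)).card : ℝ)} ≤ (∑ i ∈ I, μ.real (E i)) / t := by
  classical
  have hint : ∀ i ∈ I, Integrable ((E i).indicator (fun _ => (1 : ℝ))) μ := fun i hi =>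
    (integrable_const (1 : ℝ)).indicator (hE i hi)
  have h1 : ∀ ω, ((I.filter (fun i => ω ∈ E i)).card : ℝ) =
      ∑ i ∈ I, (E i).indicator (fun _ => (1 : ℝ)) ω := by
    intro ω
    rw [card_filter]
    push_cast
    refine sum_congr rfl (fun i _ => ?_)
    by_cases h : ω ∈ E i <;> simp [h]
  have h2 := mul_meas_ge_le_integral_of_nonneg (μ := μ)
    (f := fun ω => ∑ i ∈ I, (E i).indicator (fun _ => (1 : ℝ)) ω)
    (Eventually.of_forall (fun ω => sum_nonneg (fun i _ => Set.indicator_nonneg (fun _ _ => zero_le_one) ω)))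
    (integrable_finsetSum _ hint) t
  rw [integral_finsetSum _ hint] at h2
  have h3 : ∑ i ∈ I, ∫ ω, (E i).indicator (fun _ => (1 : ℝ)) ω ∂μ = ∑ i ∈ I, μ.real (E i) := by
    refine sum_congr rfl (fun i hi => ?_)
    rw [integral_indicator_const _ (hE i hi)]
    simp
  rw [h3] at h2
  simp_rw [h1]
  rw [le_div_iff₀ ht]
  linarith

end Pool.Agent.Q120.MF
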